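import Pool.Agent.H651.RU.Gen

set_option autoImplicit false

/-!
# A computable instance of the Ramsey-type weak König's lemma which is universal on a comeager set

The question asks for a computable infinite tree `X` such that every solution of `X` computes a
solution of every computable infinite tree `Y`. We show that there is a computable infinite tree `X`
for which this is true for comeager many solutions: there is a dense `G_δ` subset `𝒢` of the space of
the solutions `(c, H)` of `X` (`c` is the colour of `H`) such that for every computable infinite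
tree `Y` either some set `{i | n ≤ i}` is a solution of `Y`, or for some `e` the column
`{i | ⟨e, i⟩ ∈ H}` is a solution of `Y` for all `(c, H)` in `𝒢`.

So the obstacles for a universal instance are not found among the typical solutions. In the
companion file `NoUniformlyUniversal` it is shown that there are two computable instances such that no
computable instance bounds both of them on the pieces of a countable closed cover of its solutions;
here all computable instances are bounded at the same time on a dense `G_δ` set, by one functional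
for each `Y`. So the closed sets cannot be replaced by `G_δ` sets which cover comeager many solutions
there, and a proof of the negative answer must use solutions which are not typical.

Proof. `X` is the product of all computable trees (a tree with an index which turns out to be finite
is continued by all strings). If no set `{i | n ≤ i}` is a solution of the tree number `e`, then its
paths take both values infinitely often. Let `(c, H)` be a solution, `H ⊆ f⁻¹(c)` for a path `f` of
`X`. We change `f` to `c` at all large numbers in a column on which there is no condition, and add all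
numbers above `m` where the value is `c` to `H ∩ [0, m)`. The result is a solution which
meets all the columns `e` infinitely often.
-/

namespace Pool.Agent.Results.MP_aa609a_lc.GenericallyUniversal

/-- `X` is an infinite tree of binary strings. -/
def IsInst (X : List Bool → Prop) : Prop :=
  (∀ σ τ : List Bool, σ <+: τ → X τ → X σ) ∧ {σ : List Bool | X σ}.Infinite

/-- `(c, H)` is a solution of `X`: `H` (a set, given by its characteristic function) is infinite, and
it is homogeneous for infinitely many strings in `X` with the colour `c`. -/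
def IsSol (X : List Bool → Prop) (c : Bool) (H : ℕ → Bool) : Prop :=
  {i | H i = true}.Infinite ∧
    {σ : List Bool | X σ ∧ ∀ i, H i = true → ∀ b : Bool, σ[i]? = some b → b = c}.Infinite

/-- The space of the solutions of `X`, a subspace of `Bool × (ℕ → Bool)`. -/
abbrev Solutions (X : List Bool → Prop) : Type := {p : Bool × (ℕ → Bool) // IsSol X p.1 p.2}

/-- `G` is homogeneous for `Y`. -/
def Hom (Y : List Bool → Prop) (G : Set ℕ) : Prop :=
  {σ : List Bool | Y σ ∧ ∃ d : Bool, ∀ i ∈ G, ∀ b : Bool, σ[i]? = some b → b = d}.Infinite

open H651.RN H651.RU in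
/-- There is a computable instance `X`, and a dense `G_δ` set of solutions of `X` from which solutions of
all computable instances `Y` are computed. -/
theorem result : ∃ X : List Bool → Prop, ComputablePred X ∧ IsInst X ∧
    ∃ 𝒢 : Set (Solutions X), IsGδ 𝒢 ∧ Dense 𝒢 ∧ 𝒢.Nonempty ∧
      ∀ Y : List Bool → Prop, ComputablePred Y → IsInst Y →
        (∃ n : ℕ, Hom Y {i | n ≤ i}) ∨
        ∃ e : ℕ, ∀ p ∈ 𝒢, {i | p.1.2 (Nat.pair e i) = true}.Infinite ∧
          Hom Y {i | p.1.2 (Nat.pair e i) = true} := by
  classical
  have hpre : ∀ σ τ : List Bool, σ <+: τ → XX τ → XX σ := fun σ τ h hτ => XX_prefix h hτ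
  have hpath : ∀ p : Solutions XX, ∃ f, Path XX f ∧ ∀ x, p.1.2 x = true → f x = p.1.1 :=
    fun p => path_of_sol hpre p.2.2
  have hext : ∀ (f : ℕ → Bool), Path XX f → ∀ (H : ℕ → Bool) (c : Bool) (m : ℕ),
      (∀ x < m, H x = true → f x = c) → ∃ q : Solutions XX, q.1.1 = c ∧ res q.1.2 m = res H m ∧
        ∀ e ∈ EE, {i | q.1.2 (Nat.pair e i) = true}.Infinite := by
    intro f hf H c m hH
    obtain ⟨f', H', h1, h2, h3, h4, h5⟩ := extend hf m hH
    exact ⟨⟨(c, H'), h4, sol_of_path h1 h2⟩, rfl, h3, h5⟩
  refine ⟨XX, pp_XX.computablePred, ⟨hpre, ?_⟩,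
    {p | ∀ e ∈ EE, {i | p.1.2 (Nat.pair e i) = true}.Infinite}, ?_, ?_, ?_, ?_⟩
  · obtain ⟨f, hf⟩ := XX_path
    have hinj : Function.Injective (res f) := fun m n h => by
      have := congrArg List.length h
      simpa using this
    refine (Set.infinite_range_of_injective hinj).mono ?_
    rintro _ ⟨n, rfl⟩
    exact hf n
  · have h1 : {p : Solutions XX | ∀ e ∈ EE, {i | p.1.2 (Nat.pair e i) = true}.Infinite} =
        ⋂ e : EE, ⋂ n : ℕ, ⋃ i : ℕ, ⋃ _ : n < i,
          {p : Solutions XX | p.1.2 (Nat.pair e i) = true} := by
      ext p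
      simp only [Set.mem_ofPred_eq, Set.mem_iInter, Set.mem_iUnion, Subtype.forall]
      refine forall_congr' fun e => forall_congr' fun _ => ?_
      constructor
      · intro h n
        obtain ⟨i, hi, hn⟩ := h.exists_gt n
        exact ⟨i, hn, hi⟩
      · intro h
        refine Set.infinite_of_forall_exists_gt fun n => ?_
        obtain ⟨i, hn, hi⟩ := h n
        exact ⟨i, hi, hn⟩
    rw [h1]
    refine IsGδ.iInter fun e => IsGδ.iInter_of_isOpen fun n => isOpen_iUnion fun i =>
      isOpen_iUnion fun _ => ?_
    have hc : Continuous fun p : Solutions XX => p.1.2 (Nat.pair e i) :=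
      (continuous_apply _).comp (continuous_snd.comp continuous_subtype_val)
    exact (isOpen_discrete {true}).preimage hc
  · intro p
    rw [mem_closure_iff]
    intro U hU hp
    obtain ⟨V, hV, rfl⟩ := isOpen_induced_iff.1 hU
    have hV' : IsOpen {H : ℕ → Bool | (p.1.1, H) ∈ V} := hV.preimage (by fun_prop)
    obtain ⟨m, hm⟩ := open_nbhd hV' (H := p.1.2) hp
    obtain ⟨f, hf, hfH⟩ := hpath p
    obtain ⟨q, hq1, hq2, hq3⟩ := hext f hf p.1.2 p.1.1 m fun x _ hx => hfH x hx
    refine ⟨q, ?_, hq3⟩
    have h1 := hm _ hq2
    show q.1 ∈ V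
    have h2 : q.1 = (p.1.1, q.1.2) := Prod.ext hq1 rfl
    rw [h2]
    exact h1
  · obtain ⟨f, hf⟩ := XX_path
    obtain ⟨q, _, _, hq⟩ := hext f hf (fun _ => false) true 0 (by simp)
    exact ⟨q, hq⟩
  · intro Y hY hI
    obtain ⟨e, he⟩ := index_exists hY
    have hYp : ∃ f, Path Y f := by
      obtain ⟨f, hf⟩ := konig (exists_long hI.2)
      refine ⟨f, fun n => ?_⟩
      obtain ⟨σ, h1, _, h3⟩ := hf n 0
      exact hI.1 _ _ h3 h1
    by_cases hE : e ∈ EE
    · refine Or.inr ⟨e, fun p hp => ⟨hp e hE, ?_⟩⟩
      obtain ⟨f, hf, hfH⟩ := hpath p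
      have h1 : Path Y fun i => f (Nat.pair e i) := by
        rw [← he]
        obtain ⟨g, hg⟩ := hE.1
        exact fun k => (path_iff.1 hf) e k (alive_of_path hg k)
      have h2 := sol_of_path (H := fun i => p.1.2 (Nat.pair e i)) h1 fun i hi => hfH _ hi
      exact h2.mono fun σ hσ => ⟨hσ.1, p.1.1, hσ.2⟩
    · left
      obtain ⟨g, hg⟩ := hYp
      have h1 : ¬ ∀ (n : ℕ) (f : ℕ → Bool) (d : Bool), Path (TT e) f → ¬ ∀ i, n ≤ i → f i = d :=
        fun h => hE ⟨⟨g, (he g).2 hg⟩, h⟩
      push Not at h1
      obtain ⟨n, f, d, h2, h3⟩ := h1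
      refine ⟨n, ?_⟩
      have h4 := sol_of_path (H := fun i => decide (n ≤ i)) (c := d) ((he f).1 h2) fun i hi =>
        h3 i (of_decide_eq_true hi)
      exact h4.mono fun σ hσ => ⟨hσ.1, d, fun i hi => hσ.2 i (decide_eq_true hi)⟩

end Pool.Agent.Results.MP_aa609a_lc.GenericallyUniversal
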