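import Pool.Agent.H651.RN.Baire

set_option autoImplicit false

/-!
# Two computable instances of the Ramsey-type weak König's lemma without a common piecewise bound

The question asks for a computable infinite tree `X` such that every solution of `X` computes a
solution of every computable infinite tree `Y`. Then the solutions `(c, H)` of `X` (`c` is the colour
of `H`) are covered by the sets of those solutions from which the `e`-th functional computes a solution
of `Y`. We show that this is impossible if the functional is chosen in a less complicated way:
there are two computable infinite trees `Y₀`, `Y₁` such that for every computable infinite tree `X` one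
of them, `Y`, is not `PiecewiseReducible` to `X`, that is, there is no countable cover of the solutions of
`X` by closed sets `S n`, arbitrary ones, such that on each `S n` finitely many functionals suffice.

Special cases (with `S 0` everything): no computable instance is uniformly universal (one functional
for each `Y`), or universal with finitely many functionals for each `Y`. Others: the index of the
functional depends continuously on the solution, or is measurable with respect to `F_σ` sets (a cover
by `F_σ` sets can be refined to a cover by closed sets). In the question itself the pieces are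
intersections of closed sets and `G_δ` sets; this is not settled here.

* A set of natural numbers used as an oracle is given by its characteristic function `H`, and
  `start H n` is the string of its first `n` values.
* `Enum R c H` is the set enumerated from `H` by the c.e. operator `R`, when it is told the
  colour `c`. If a Turing functional computes the characteristic function of a set `G` from `H`,
  then `G = Enum R c H` for the c.e. set `R` of the triples `(c, σ, y)` such that the functional
  has the value `1` at `y` with use contained in `σ`. So the operators here are more general than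
  Turing functionals.
* `HomC X H c`: `H` is homogeneous for `X` with the colour `c`; `Hom Y G`: `G` is homogeneous
  for `Y`.

Proof: helper files `Pool.Agent.H651.RN.*`. A finite injury construction of the two trees, against
all computable trees and all lists of operators (`Prim`, `Comb`, `Ana`), a forcing argument which makes
the list of the operators minimal (`Fin`), and Baire's theorem for the space of the solutions (`Baire`).
-/

namespace Pool.Agent.Results.MP_aa609a_lc.NoUniformlyUniversal

/-- The first `n` values of `H`. -/
def start (H : ℕ → Bool) (n : ℕ) : List Bool := (List.range n).map H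

/-- The set enumerated from the set `H` and the colour `c` by the operator `R`. -/
def Enum (R : Bool × List Bool × ℕ → Prop) (c : Bool) (H : ℕ → Bool) : Set ℕ :=
  {y | ∃ n, R (c, start H n, y)}

/-- `X` is an infinite tree of binary strings. -/
def IsInst (X : List Bool → Prop) : Prop :=
  (∀ σ τ : List Bool, σ <+: τ → X τ → X σ) ∧ {σ : List Bool | X σ}.Infinite

/-- `H` is homogeneous for `X` with the colour `c`. -/
def HomC (X : List Bool → Prop) (H : ℕ → Bool) (c : Bool) : Prop :=
  {σ : List Bool | X σ ∧ ∀ i, H i = true → ∀ b : Bool, σ[i]? = some b → b = c}.Infinite

/-- `(c, H)` is a solution of `X`: `H` is infinite and homogeneous for `X` with the colour `c`. -/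
def IsSol (X : List Bool → Prop) (c : Bool) (H : ℕ → Bool) : Prop :=
  {i | H i = true}.Infinite ∧ HomC X H c

/-- `G` is homogeneous for `Y`. -/
def Hom (Y : List Bool → Prop) (G : Set ℕ) : Prop :=
  {σ : List Bool | Y σ ∧ ∃ d : Bool, ∀ i ∈ G, ∀ b : Bool, σ[i]? = some b → b = d}.Infinite

/-- The solutions of `X` are covered by countably many closed sets `S n` (in the product topology of
`Bool × (ℕ → Bool)`), for each of which there is a finite list of c.e. operators such that for each
solution of `X` in `S n` some operator in the list enumerates a solution of `Y`. -/
def PiecewiseReducible (X Y : List Bool → Prop) : Prop :=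
  ∃ (S : ℕ → Set (Bool × (ℕ → Bool))) (N : ℕ → ℕ)
    (R : ∀ n, Fin (N n) → Bool × List Bool × ℕ → Prop),
    (∀ n, IsClosed (S n)) ∧ (∀ n i, REPred (R n i)) ∧
    (∀ c H, IsSol X c H → ∃ n, (c, H) ∈ S n) ∧
    ∀ n c H, IsSol X c H → (c, H) ∈ S n →
      ∃ i, (Enum (R n i) c H).Infinite ∧ Hom Y (Enum (R n i) c H)

/-- There are two computable instances such that no computable instance `X` bounds both of them
piecewise. -/
theorem result : ∃ Y : Bool → List Bool → Prop, (∀ l, ComputablePred (Y l) ∧ IsInst (Y l)) ∧
    ∀ X : List Bool → Prop, ComputablePred X → IsInst X → ∃ l : Bool, ¬ PiecewiseReducible X (Y l) := by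
  refine ⟨H651.RN.YT, fun l => ⟨(H651.RN.pp_YT l).computablePred,
    fun σ τ h hτ => H651.RN.YT_prefix h hτ, H651.RN.YT_infinite l⟩, fun X hX hI => ?_⟩
  by_contra hne
  push Not at hne
  choose S N R hS hR hcov hsol using hne
  refine H651.RN.main2 hX hI.1 hI.2
    (S := fun n => S false n.unpair.1 ∩ S true n.unpair.2)
    (fun n => (hS false _).inter (hS true _))
    (N := fun n => N false n.unpair.1 + N true n.unpair.2)
    (R := fun n => Fin.append (R false n.unpair.1) (R true n.unpair.2))
    (fun n i => ?_) (fun c H h1 h2 => ?_) (fun n c H h1 h2 h3 l => ?_)
  · refine Fin.addCases (fun i => ?_) (fun i => ?_) i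
    · rw [Fin.append_left]; exact hR false _ i
    · rw [Fin.append_right]; exact hR true _ i
  · obtain ⟨a, ha⟩ := hcov false c H ⟨h1, h2⟩
    obtain ⟨b, hb⟩ := hcov true c H ⟨h1, h2⟩
    refine ⟨Nat.pair a b, ?_⟩
    rw [Nat.unpair_pair]
    exact ⟨ha, hb⟩
  · rcases l with _ | _
    · obtain ⟨i, hi⟩ := hsol false _ c H ⟨h1, h2⟩ h3.1
      refine ⟨Fin.castAdd _ i, ?_⟩
      rw [Fin.append_left]
      exact hi
    · obtain ⟨i, hi⟩ := hsol true _ c H ⟨h1, h2⟩ h3.2
      refine ⟨Fin.natAdd _ i, ?_⟩
      rw [Fin.append_right]
      exact hi

end Pool.Agent.Results.MP_aa609a_lc.NoUniformlyUniversal
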